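import Mathlib

set_option autoImplicit false

namespace Pool.Agent.Results.MP_9fecad_an.NoCommon

open Set

/-- the polynomial `G_{α,β}` -/
noncomputable def G (α : ℕ) (β : ℝ) (ξ : ℂ) : ℂ :=
  ∑ n ∈ Finset.range (α + 2), ((α + 1).choose n : ℂ) * (-ξ) ^ n / (n + β)

noncomputable def m (β x : ℝ) : ℝ :=
  x ^ 4 - 4 * (4 + β) / (3 + β) * x ^ 3 + 6 * (4 + β) / (2 + β) * x ^ 2 - 4 * (4 + β) / (1 + β) * x
    + (4 + β) / β

theorem G_iff {β : ℝ} (h : β ∈ Ioo (-1 : ℝ) 0) (ξ : ℂ) : G 3 β ξ = 0 ↔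
    ξ ^ 4 - (4 * (4 + β) / (3 + β) : ℝ) * ξ ^ 3 + (6 * (4 + β) / (2 + β) : ℝ) * ξ ^ 2
      - (4 * (4 + β) / (1 + β) : ℝ) * ξ + ((4 + β) / β : ℝ) = 0 := by
  have h4 : ((4 + β : ℝ) : ℂ) ≠ 0 := by exact_mod_cast (by linarith [h.1] : 4 + β ≠ 0)
  rw [← mul_right_inj' h4, mul_zero]
  refine Eq.congr_left ?_
  push_cast at h4 ⊢
  simp only [G, Finset.sum_range_succ, Finset.range_zero, Finset.sum_empty]
  norm_num [Nat.choose]
  rw [mul_add, mul_div_cancel₀ _ h4]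
  ring

theorem G_real {β : ℝ} (h : β ∈ Ioo (-1 : ℝ) 0) (x : ℝ) : G 3 β x = 0 ↔ m β x = 0 := by
  rw [G_iff h, m]; norm_cast

theorem quart {a3 a2 a1 a0 r s : ℝ} (hr : 0 < r) (hs : 0 < s)
    (h1 : r ^ 4 - a3 * r ^ 3 + a2 * r ^ 2 - a1 * r + a0 = 0)
    (h2 : (-s) ^ 4 - a3 * (-s) ^ 3 + a2 * (-s) ^ 2 - a1 * (-s) + a0 = 0)
    (hd : (a3 - r + s) ^ 2 * (r * s) < 4 * -a0) {ξ : ℂ}
    (h : ξ ^ 4 - a3 * ξ ^ 3 + a2 * ξ ^ 2 - a1 * ξ + a0 = 0) :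
    ξ = -s ∨ ξ = r ∨ ‖ξ‖ ^ 2 * (r * s) = -a0 := by
  set p := a3 - r + s with hp
  set q := a2 - (r - s) * p + r * s with hq
  have e1 : -a1 + (r - s) * q - r * s * p = 0 := by
    have : (r + s) * (-a1 + (r - s) * q - r * s * p) = 0 := by
      rw [hq, hp]; linear_combination h1 - h2
    exact (mul_eq_zero.1 this).resolve_left (by positivity)
  have e2 : a0 + r * s * q = 0 := by
    rw [hq, hp] at e1 ⊢; linear_combination h1 - r * e1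
  have e3 : (ξ + s) * ((ξ - r) * (ξ ^ 2 - p * ξ + q)) = 0 := by
    have c1 : ((-a1 + (r - s) * q - r * s * p : ℝ) : ℂ) = 0 := by exact_mod_cast e1
    have c2 : ((a0 + r * s * q : ℝ) : ℂ) = 0 := by exact_mod_cast e2
    rw [hq, hp] at c1 c2 ⊢
    push_cast at c1 c2 ⊢
    linear_combination h - ξ * c1 - c2
  rcases mul_eq_zero.1 e3 with h3 | h3
  · exact Or.inl (eq_neg_of_add_eq_zero_left h3)
  rcases mul_eq_zero.1 h3 with h3 | h3
  · exact Or.inr (Or.inl (sub_eq_zero.1 h3))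
  refine Or.inr (Or.inr ?_)
  have hd' : p ^ 2 < 4 * q := lt_of_mul_lt_mul_right (a := r * s) (by linarith) (by positivity)
  have r1 := congrArg Complex.re h3
  have r2 := congrArg Complex.im h3
  simp [sq] at r1 r2
  have r3 : ξ.im * (2 * ξ.re - p) = 0 := by linarith
  rw [Complex.sq_norm, Complex.normSq_apply]
  rcases mul_eq_zero.1 r3 with h4 | h4
  · rw [h4] at r1; nlinarith [sq_nonneg (2 * ξ.re - p)]
  · have : ξ.re * ξ.re + ξ.im * ξ.im = q := by linear_combination ξ.re * h4 - r1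
    rw [this]; linarith

theorem cont (β : ℝ) : Continuous (m β) := by unfold m; fun_prop

theorem ivt {β a b : ℝ} (hab : a ≤ b) (h1 : m β a ≤ 0) (h2 : 0 ≤ m β b) : ∃ r ∈ Icc a b, m β r = 0 :=
  intermediate_value_Icc hab (cont β).continuousOn ⟨h1, h2⟩

theorem mono {β s t : ℝ} (h : β ∈ Ioo (-1 : ℝ) 0) (hs : 0 ≤ s) (hst : s < t) : m β (-s) < m β (-t) := by
  obtain ⟨h1, h2⟩ := h
  have p3 : 0 < 4 * (4 + β) / (3 + β) := div_pos (by linarith) (by linarith)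
  have p2 : 0 < 6 * (4 + β) / (2 + β) := div_pos (by linarith) (by linarith)
  have p1 : 0 < 4 * (4 + β) / (1 + β) := div_pos (by linarith) (by linarith)
  have q4 := pow_le_pow_left₀ hs hst.le 4
  have q3 := mul_le_mul_of_nonneg_left (pow_le_pow_left₀ hs hst.le 3) p3.le
  have q2 := mul_le_mul_of_nonneg_left (pow_le_pow_left₀ hs hst.le 2) p2.le
  have q1 := mul_lt_mul_of_pos_left hst p1
  unfold m
  nlinarith

theorem big {β : ℝ} (h : β ∈ Ioo (-1 : ℝ) 0) : ∃ M, 4 ≤ M ∧ 0 ≤ m β M := by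
  obtain ⟨h1, h2⟩ := h
  have p3 : 0 < 4 * (4 + β) / (3 + β) := div_pos (by linarith) (by linarith)
  have p2 : 0 < 6 * (4 + β) / (2 + β) := div_pos (by linarith) (by linarith)
  have p1 : 0 < 4 * (4 + β) / (1 + β) := div_pos (by linarith) (by linarith)
  have p0 : (4 + β) / β < 0 := div_neg_of_pos_of_neg (by linarith) h2
  unfold m
  generalize 4 * (4 + β) / (3 + β) = a3 at *
  generalize 6 * (4 + β) / (2 + β) = a2 at *
  generalize 4 * (4 + β) / (1 + β) = a1 at *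
  generalize (4 + β) / β = a0 at *
  refine ⟨a3 + a1 - a0 + 4, by linarith, ?_⟩
  set M := a3 + a1 - a0 + 4 with hM
  have m1 : 1 ≤ M := by linarith
  have m3 : M ≤ M ^ 3 := le_self_pow₀ m1 (by norm_num)
  have : M ^ 4 - a3 * M ^ 3 = M ^ 3 * (a1 - a0 + 4) := by rw [hM]; ring
  nlinarith [mul_nonneg p1.le (sub_nonneg.2 m3), mul_nonneg (neg_nonneg.2 p0.le)
    (sub_nonneg.2 (m1.trans m3)), mul_nonneg p2.le (sq_nonneg M)]

theorem sgn {β : ℝ} (h : β ∈ Ioo (-1 : ℝ) 0) (x : ℝ) :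
    m β x * (-β * (1 + β) * (2 + β) * (3 + β)) =
      x ^ 4 * (-β * (1 + β) * (2 + β) * (3 + β)) + 4 * (4 + β) * β * (1 + β) * (2 + β) * x ^ 3
      - 6 * (4 + β) * β * (1 + β) * (3 + β) * x ^ 2 + 4 * (4 + β) * β * (2 + β) * (3 + β) * x
      - (4 + β) * (1 + β) * (2 + β) * (3 + β) ∧ 0 < -β * (1 + β) * (2 + β) * (3 + β) := by
  obtain ⟨h1, h2⟩ := h
  have : β ≠ 0 := h2.ne
  have : 1 + β ≠ 0 := by linarith
  have : 2 + β ≠ 0 := by linarith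
  have : 3 + β ≠ 0 := by linarith
  refine ⟨by unfold m; field_simp; ring, ?_⟩
  exact mul_pos (mul_pos (mul_pos (by linarith) (by linarith)) (by linarith)) (by linarith)

theorem range {β : ℝ} (h : β ∈ Ioo (-1 : ℝ) 0) (h0 : 0 ≤ m β (1493 / 400)) :
    -28 / 100 ≤ β ∧ β ≤ -1 / 4 := by
  obtain ⟨e, hp⟩ := sgn h (1493 / 400)
  have h1 := mul_nonneg h0 hp.le
  rw [e] at h1
  obtain ⟨h2, h3⟩ := h
  constructor <;> by_contra hc <;> push Not at hc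
  · obtain ⟨u, rfl⟩ : ∃ u, β = -28 / 100 - u := ⟨-28 / 100 - β, by ring⟩
    have hu : 0 < u := by linarith
    nlinarith [mul_pos hu hu, mul_nonneg (sq_nonneg u) (by linarith : 0 ≤ 1 - u), sq_nonneg (u ^ 2)]
  · obtain ⟨u, rfl⟩ : ∃ u, β = -1 / 4 + u := ⟨β + 1 / 4, by ring⟩
    have hu : 0 < u := by linarith
    nlinarith [mul_pos hu hu, pow_pos hu 3, sq_nonneg (u ^ 2)]

theorem cls {β r s : ℝ} (h : β ∈ Ioo (-1 : ℝ) 0) (h1 : -1 / 3 ≤ β) (h2 : β ≤ -1 / 4)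
    (hr : r ∈ Icc (37 / 10 : ℝ) 4) (hs : 0 < s) (hs1 : s ≤ 1) (e1 : m β r = 0) (e2 : m β (-s) = 0)
    {ξ : ℂ} (hξ : G 3 β ξ = 0) : ξ = -s ∨ ξ = r ∨ ‖ξ‖ ^ 2 * (r * s) * -β = 4 + β := by
  have hb : β ≠ 0 := h.2.ne
  have a3 : 5 ≤ 4 * (4 + β) / (3 + β) ∧ 4 * (4 + β) / (3 + β) ≤ 11 / 2 :=
    ⟨by rw [le_div_iff₀ (by linarith)]; linarith, by rw [div_le_iff₀ (by linarith)]; linarith⟩
  have a0 : 11 ≤ -((4 + β) / β) := by
    rw [← div_neg, le_div_iff₀ (by linarith)]; linarith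
  rcases quart (by linarith [hr.1]) hs e1 e2 (by
    have c1 : (4 * (4 + β) / (3 + β) - r + s) ^ 2 ≤ 3 ^ 2 :=
      pow_le_pow_left₀ (by linarith [hr.2]) (by linarith [hr.1]) 2
    have c2 : r * s ≤ 4 := by nlinarith [hr.1, hr.2]
    have c3 : 0 ≤ r * s := by nlinarith [hr.1]
    nlinarith) ((G_iff h ξ).1 hξ) with h3 | h3 | h3
  · exact Or.inl h3
  · exact Or.inr (Or.inl h3)
  · exact Or.inr (Or.inr (by rw [h3]; field_simp))

theorem s_le {β s t : ℝ} (h : β ∈ Ioo (-1 : ℝ) 0) (ht : 0 ≤ t) (e : m β (-s) = 0)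
    (h0 : 0 ≤ m β (-t)) : s ≤ t := by
  by_contra hc
  linarith [mono h ht (not_le.1 hc)]

theorem le_s {β s t : ℝ} (h : β ∈ Ioo (-1 : ℝ) 0) (hs : 0 ≤ s) (e : m β (-s) = 0)
    (h0 : m β (-t) ≤ 0) : t ≤ s := by
  by_contra hc
  linarith [mono h hs (not_le.1 hc)]

theorem result (X : Fin 4 → ℝ → ℂ) (hc : ∀ k, ContinuousOn (X k) (Ioo (-1) 0))
    (hz : ∀ β ∈ Ioo (-1 : ℝ) 0, ∀ ξ, G 3 β ξ = 0 ↔ ∃ k, X k β = ξ)
    (hi : ∀ β ∈ Ioo (-1 : ℝ) 0, ∀ k l, X k β = X l β → k = l)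
    (h0 : ∀ β ∈ Ioo (-1 : ℝ) 0, (X 0 β).im = 0 ∧ (X 0 β).re < 0) :
    ¬ ∃ b ∈ Ioo (-1 : ℝ) 0, ∀ k, k ≠ 0 → ∀ β ∈ Ioo (-1 : ℝ) 0, ‖X k b‖ ≤ ‖X k β‖ := by
  rintro ⟨b, hb, H⟩
  have hs : ∀ β ∈ Ioo (-1 : ℝ) 0, ∃ s : ℝ, 0 < s ∧ X 0 β = -s ∧ m β (-s) = 0 := fun β hβ => by
    have e : X 0 β = ((X 0 β).re : ℂ) := Complex.ext rfl (by simpa using (h0 β hβ).1)
    refine ⟨-(X 0 β).re, by linarith [(h0 β hβ).2], by simpa using e, ?_⟩
    rw [neg_neg, ← G_real hβ, ← e]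
    exact (hz β hβ _).2 ⟨0, rfl⟩
  have key : ∀ β ∈ Ioo (-1 : ℝ) 0, -1 / 3 ≤ β → β ≤ -1 / 4 → ∀ r ∈ Icc (37 / 10 : ℝ) 4, m β r = 0 →
      ∃ s : ℝ, 0 < s ∧ m β (-s) = 0 ∧ ∀ k, k ≠ 0 → X k β = r ∨ ‖X k β‖ ^ 2 * (r * s) * -β = 4 + β := by
    intro β hβ h1 h2 r hr e
    obtain ⟨s, s0, s1, s2⟩ := hs β hβ
    have s3 : s ≤ 1 := s_le hβ zero_le_one s2 (by
      obtain ⟨e, hp⟩ := sgn hβ (-1)
      refine nonneg_of_mul_nonneg_left (e ▸ ?_) hp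
      obtain ⟨u, rfl⟩ : ∃ u, β = -1 / 4 - u := ⟨-1 / 4 - β, by ring⟩
      have hu : 0 ≤ u := by linarith
      have hu' : 0 ≤ 1 / 12 - u := by linarith
      nlinarith [mul_nonneg hu hu', mul_nonneg (sq_nonneg u) hu', mul_nonneg (pow_nonneg hu 3) hu'])
    refine ⟨s, s0, s2, fun k hk => ?_⟩
    refine (cls hβ h1 h2 hr s0 s3 e s2 ((hz β hβ _).2 ⟨k, rfl⟩)).resolve_left fun h => ?_
    exact hk (hi β hβ _ _ (h.trans s1.symm))
  have ha : (-27 / 100 : ℝ) ∈ Ioo (-1 : ℝ) 0 := by norm_num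
  have hA : ∀ k, k ≠ 0 → ‖X k b‖ ≤ 1493 / 400 := fun k hk => by
    refine (H k hk _ ha).trans ?_
    obtain ⟨r, hr, e⟩ := ivt (β := -27 / 100) (a := 37 / 10) (b := 1493 / 400) (by norm_num)
      (by norm_num [m]) (by norm_num [m])
    obtain ⟨s, s0, s2, h⟩ := key _ ha (by norm_num) (by norm_num) r ⟨hr.1, by linarith [hr.2]⟩ e
    have s3 : 2 / 5 ≤ s := le_s ha s0.le s2 (by norm_num [m])
    rcases h k hk with h | h
    · rw [h, Complex.norm_real, Real.norm_of_nonneg (by linarith [hr.1])]; exact hr.2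
    · by_contra hc
      have c1 : (37 / 10 : ℝ) ^ 2 ≤ ‖X k (-27 / 100)‖ ^ 2 :=
        pow_le_pow_left₀ (by norm_num) (by linarith) 2
      have c2 : 37 / 10 * (2 / 5) ≤ r * s := by nlinarith [hr.1]
      nlinarith
  have hρ : 0 ≤ m b (1493 / 400) := by
    by_contra hc
    obtain ⟨M, h1, h2⟩ := big hb
    obtain ⟨r, hr, e⟩ := ivt (by linarith : 1493 / 400 ≤ M) (not_le.1 hc).le h2
    obtain ⟨k, hk⟩ := (hz b hb r).1 ((G_real hb r).2 e)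
    have hk0 : k ≠ 0 := by
      rintro rfl
      have := (h0 b hb).2
      rw [hk, Complex.ofReal_re] at this
      linarith [hr.1]
    have := hA k hk0
    rw [hk, Complex.norm_real, Real.norm_of_nonneg (by linarith [hr.1])] at this
    rw [le_antisymm this hr.1] at e
    exact hc e.ge
  obtain ⟨b1, b2⟩ := range hb hρ
  obtain ⟨u, hu⟩ : ∃ u, b = -1 / 4 - u := ⟨-1 / 4 - b, by ring⟩
  have u0 : 0 ≤ u := by linarith
  have u1 : 0 ≤ 3 / 100 - u := by linarith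
  have hB : ∀ k, k ≠ 0 → 15 / 2 < ‖X k b‖ ^ 2 := fun k hk => by
    obtain ⟨r, hr, e⟩ := ivt (β := b) (a := 37 / 10) (b := 1493 / 400) (by norm_num) (by
      obtain ⟨e, hp⟩ := sgn hb (37 / 10)
      refine nonpos_of_mul_nonpos_left (e ▸ ?_) hp
      rw [hu]
      nlinarith [mul_nonneg u0 u1, mul_nonneg (sq_nonneg u) u1, mul_nonneg (pow_nonneg u0 3) u1]) hρ
    obtain ⟨s, s0, s2, h⟩ := key _ hb (by linarith) b2 r ⟨hr.1, by linarith [hr.2]⟩ e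
    have s3 : s ≤ 5275 / 10000 - 183 / 100 * u := s_le hb (by linarith) s2 (by
      obtain ⟨e, hp⟩ := sgn hb (-(5275 / 10000 - 183 / 100 * u))
      refine nonneg_of_mul_nonneg_left (e ▸ ?_) hp
      rw [hu]
      have q := fun n => mul_nonneg (pow_nonneg u0 n) u1
      nlinarith [q 0, q 1, q 2, q 3, q 4, q 5, q 6, q 7])
    rcases h k hk with h | h
    · rw [h, Complex.norm_real, Real.norm_of_nonneg (by linarith [hr.1])]; nlinarith [hr.1]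
    · by_contra hc
      have c2 : r * s ≤ 1493 / 400 * (5275 / 10000 - 183 / 100 * u) :=
        mul_le_mul hr.2 s3 s0.le (by norm_num)
      have c3 : ‖X k b‖ ^ 2 * (r * s) ≤ 15 / 2 * (1493 / 400 * (5275 / 10000 - 183 / 100 * u)) :=
        mul_le_mul (not_lt.1 hc) c2 (by nlinarith [hr.1]) (by norm_num)
      have c4 := mul_le_mul_of_nonneg_right c3 (by linarith [hb.2] : 0 ≤ -b)
      rw [h, hu] at c4
      nlinarith [mul_nonneg u0 u1]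
  have hb3 : (-1 / 3 : ℝ) ∈ Ioo (-1 : ℝ) 0 := by norm_num
  obtain ⟨r, hr, e⟩ := ivt (β := -1 / 3) (a := 15 / 4) (b := 4) (by norm_num)
    (by norm_num [m]) (by norm_num [m])
  obtain ⟨s, s0, s2, h⟩ := key _ hb3 le_rfl (by norm_num) r ⟨by linarith [hr.1], hr.2⟩ e
  have s3 : 3915 / 10000 ≤ s := le_s hb3 s0.le s2 (by norm_num [m])
  have fin : ∀ k, k ≠ 0 → X k (-1 / 3) = r := fun k hk => (h k hk).resolve_right fun h => by
    have c1 := (hB k hk).trans_le (pow_le_pow_left₀ (norm_nonneg _) (H k hk _ hb3) 2)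
    have c2 : 15 / 4 * (3915 / 10000) ≤ r * s := by nlinarith [hr.1]
    nlinarith
  exact absurd (hi _ hb3 1 2 ((fin 1 (by decide)).trans (fin 2 (by decide)).symm)) (by decide)

end Pool.Agent.Results.MP_9fecad_an.NoCommon
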